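import Pool.Agent.H88.LS.Stm
import Pool.Agent.H61.PNT.All

/-!
# Project LS, row N: counts of primes from the prime number theorem
-/

set_option autoImplicit false

namespace Pool.Agent.H65.LS

open Finset Pool.Agent.H88.LS Pool.Agent.H61.PNT

theorem pw_card (a b : ℕ) (h : a ≤ b) :
    Nat.primeCounting b = Nat.primeCounting a + (pw a b).card := by
  have h1 : ∀ n : ℕ, Nat.primeCounting n = ((range (n + 1)).filter Nat.Prime).card := by
    intro n
    rw [Nat.primeCounting, Nat.primeCounting', Nat.count_eq_card_filter_range]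
  have h2 : (range (b + 1)).filter Nat.Prime
      = (range (a + 1)).filter Nat.Prime ∪ pw a b := by
    ext q
    simp only [pw, mem_union, mem_filter, mem_range, mem_Ioc]
    constructor
    · rintro ⟨h3, h4⟩
      by_cases h5 : q < a + 1
      · exact Or.inl ⟨h5, h4⟩
      · exact Or.inr ⟨⟨by omega, by omega⟩, h4⟩
    · rintro (⟨h3, h4⟩ | ⟨⟨h3, h5⟩, h4⟩)
      · exact ⟨by omega, h4⟩
      · exact ⟨by omega, h4⟩
  have h3 : Disjoint ((range (a + 1)).filter Nat.Prime) (pw a b) := by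
    rw [Finset.disjoint_left]
    intro q hq hq'
    simp only [pw, mem_filter, mem_range, mem_Ioc] at hq hq'
    omega
  rw [h1 b, h1 a, h2, card_union_of_disjoint h3]

theorem key (C : ℝ) (hC : 0 < C)
    (hP : ∀ x : ℝ, 2 ≤ x →
      |(Nat.primeCounting ⌊x⌋₊ : ℝ) - x / Real.log x| ≤ C * x / Real.log x ^ 2)
    (x : ℕ) (hx : 3 ≤ x) (l : ℝ) (hl : 0 ≤ l) (hl1 : l ≤ 1) :
    (l - (2 + 3 * C) / Real.log x) * x / Real.log x
      ≤ (Nat.primeCounting ⌊(1 + l) * (x : ℝ)⌋₊ : ℝ) - Nat.primeCounting x := by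
  have hx3 : (3 : ℝ) ≤ x := by exact_mod_cast hx
  have hx0 : (0 : ℝ) < x := by linarith
  have hL : 0 < Real.log x := Real.log_pos (by linarith)
  set L := Real.log x with hLd
  set z : ℝ := (1 + l) * x with hz
  have hzx : (x : ℝ) ≤ z := by rw [hz]; nlinarith
  have hz2x : z ≤ 2 * x := by rw [hz]; nlinarith
  have hz2 : 2 ≤ z := by linarith
  have hz0 : 0 < z := by linarith
  have hlz : Real.log z = Real.log (1 + l) + L := by
    rw [hz, Real.log_mul (by linarith) (by linarith)]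
  have hl2 : Real.log (1 + l) ≤ 1 := by
    have := Real.log_le_sub_one_of_pos (show (0 : ℝ) < 1 + l by linarith)
    linarith
  have hl0 : 0 ≤ Real.log (1 + l) := Real.log_nonneg (by linarith)
  have hlzL : L ≤ Real.log z := by rw [hlz]; linarith
  have hlzU : Real.log z ≤ L + 1 := by rw [hlz]; linarith
  have hlz0 : 0 < Real.log z := by linarith
  have hA := abs_le.1 (hP z hz2)
  have hB := abs_le.1 (hP x (by linarith))
  rw [Nat.floor_natCast] at hB
  -- lower bound for z / log z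
  have h1 : z / L - 2 * x / L ^ 2 ≤ z / Real.log z := by
    have h2 : z / (L + 1) ≤ z / Real.log z :=
      div_le_div_of_nonneg_left hz0.le hlz0 hlzU
    have h3 : z / L - z / L ^ 2 ≤ z / (L + 1) := by
      have h4 : z / (L + 1) - (z / L - z / L ^ 2) = z / (L ^ 2 * (L + 1)) := by
        field_simp
        ring
      have h5 : 0 ≤ z / (L ^ 2 * (L + 1)) := by positivity
      linarith
    have h4 : z / L ^ 2 ≤ 2 * x / L ^ 2 := by
      apply div_le_div_of_nonneg_right hz2x (by positivity)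
    linarith
  have h2 : C * z / Real.log z ^ 2 ≤ C * (2 * x) / L ^ 2 := by
    apply div_le_div₀ (by positivity) (by nlinarith) (by positivity)
    exact pow_le_pow_left₀ hL.le hlzL 2
  have h3 : (l - (2 + 3 * C) / L) * x / L
      = z / L - 2 * x / L ^ 2 - C * (2 * x) / L ^ 2 - (x / L + C * x / L ^ 2) := by
    rw [hz]
    field_simp
    ring
  rw [h3]
  linarith [hA.1, hB.2]

theorem cnt : SCnt := by
  intro ε hε
  obtain ⟨C, hC, hP⟩ := pnt
  refine ⟨⌈Real.exp ((2 + 3 * C) / ε)⌉₊ + 3, ?_⟩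
  intro x hx
  have hx3 : 3 ≤ x := by omega
  have hxr : (3 : ℝ) ≤ x := by exact_mod_cast hx3
  have hL : 0 < Real.log x := Real.log_pos (by linarith)
  have hk := key C hC hP x hx3 1 zero_le_one le_rfl
  have hfl : ⌊(1 + 1) * (x : ℝ)⌋₊ = 2 * x := by
    have : (1 + 1) * (x : ℝ) = ((2 * x : ℕ) : ℝ) := by push_cast; ring
    rw [this, Nat.floor_natCast]
  rw [hfl, pw_card x (2 * x) (by omega)] at hk
  have hlog : (2 + 3 * C) / ε ≤ Real.log x := by
    rw [Real.le_log_iff_exp_le (by linarith)]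
    refine (Nat.le_ceil _).trans ?_
    exact_mod_cast (by omega : ⌈Real.exp ((2 + 3 * C) / ε)⌉₊ ≤ x)
  have h1 : (2 + 3 * C) / Real.log x ≤ ε := by
    rw [div_le_iff₀ hL]
    rw [div_le_iff₀ hε] at hlog
    linarith
  push_cast at hk
  have h2 : (1 - ε) * x / Real.log x ≤ (1 - (2 + 3 * C) / Real.log x) * x / Real.log x := by
    apply div_le_div_of_nonneg_right _ hL.le
    nlinarith
  linarith

theorem two : STwo := by
  intro ε' hε'
  obtain ⟨C, hC, hP⟩ := pnt
  set ε : ℝ := min ε' 1 with hεd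
  have hε : 0 < ε := lt_min hε' one_pos
  have hε1 : ε ≤ 1 := min_le_right _ _
  refine ⟨⌈Real.exp (2 * (2 + 3 * C) / ε)⌉₊ + ⌈64 / ε ^ 2⌉₊ + 3, ?_⟩
  intro x y hx hxy
  have hx3 : 3 ≤ x := by omega
  have hxr : (3 : ℝ) ≤ x := by exact_mod_cast hx3
  have hx0 : (0 : ℝ) < x := by linarith
  have hL : 0 < Real.log x := Real.log_pos (by linarith)
  have hk := key C hC hP x hx3 ε hε.le hε1
  have hεε : ε ≤ ε' := min_le_left _ _
  have hfl : ⌊(1 + ε) * (x : ℝ)⌋₊ ≤ y := by
    apply Nat.floor_le_of_le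
    nlinarith
  have hxy' : x ≤ y := by
    have : (x : ℝ) ≤ y := by nlinarith
    exact_mod_cast this
  have hmon : (Nat.primeCounting ⌊(1 + ε) * (x : ℝ)⌋₊ : ℝ) ≤ Nat.primeCounting y := by
    exact_mod_cast Nat.monotone_primeCounting hfl
  rw [pw_card x y hxy'] at hmon
  push_cast at hmon
  have hlog : 2 * (2 + 3 * C) / ε ≤ Real.log x := by
    rw [Real.le_log_iff_exp_le hx0]
    refine (Nat.le_ceil _).trans ?_
    exact_mod_cast (by omega : ⌈Real.exp (2 * (2 + 3 * C) / ε)⌉₊ ≤ x)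
  have h1 : (2 + 3 * C) / Real.log x ≤ ε / 2 := by
    rw [div_le_iff₀ hL]
    rw [div_le_iff₀ hε] at hlog
    linarith
  have hx64 : 64 / ε ^ 2 ≤ (x : ℝ) := by
    refine (Nat.le_ceil _).trans ?_
    exact_mod_cast (by omega : ⌈64 / ε ^ 2⌉₊ ≤ x)
  -- log x ≤ 2 sqrt x
  have hs0 : 0 < Real.sqrt x := Real.sqrt_pos.2 hx0
  have hsq : Real.sqrt x ^ 2 = x := Real.sq_sqrt hx0.le
  have hlog2 : Real.log x ≤ 2 * Real.sqrt x := by
    have h2 : Real.log x = 2 * Real.log (Real.sqrt x) := by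
      rw [Real.log_sqrt hx0.le]; ring
    have h3 := Real.log_le_sub_one_of_pos hs0
    rw [h2]; linarith
  have hs8 : 8 ≤ ε * Real.sqrt x := by
    have h2 : (8 : ℝ) ^ 2 ≤ (ε * Real.sqrt x) ^ 2 := by
      rw [mul_pow, hsq]
      rw [div_le_iff₀ (by positivity)] at hx64
      nlinarith
    have h3 := abs_le_of_sq_le_sq h2 (by positivity : (0 : ℝ) ≤ ε * Real.sqrt x)
    rwa [abs_of_pos (by norm_num : (0 : ℝ) < 8)] at h3
  have h4 : 2 ≤ (ε - (2 + 3 * C) / Real.log x) * x / Real.log x := by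
    have h5 : ε / 2 * x / Real.log x ≤ (ε - (2 + 3 * C) / Real.log x) * x / Real.log x := by
      apply div_le_div_of_nonneg_right _ hL.le
      nlinarith
    have h6 : 2 ≤ ε / 2 * x / Real.log x := by
      rw [le_div_iff₀ hL]
      nlinarith
    linarith
  have h5 : (2 : ℝ) ≤ ((pw x y).card : ℝ) := by linarith
  exact_mod_cast h5

end Pool.Agent.H65.LS
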